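import Pool.Agent.U503.EA.Stm

/-!
# Project EA, package REST (helper438)
-/

set_option autoImplicit false

namespace Pool.Agent.U438.EA

open Finset Function Module SimpleGraph Pool.Agent.TH486.LAC Pool.Agent.Y647.LAC Pool.Agent.U503.VS
  Pool.Agent.U503.EA

/-- antisymmetric subsets of a submodule without zero -/
theorem two_card_lt {p : ℕ} [Fact p.Prime] {A : Type} [AddCommGroup A] [Module (ZMod p) A] [Finite A]
    (B : Finset A) (V : Submodule (ZMod p) A) (hB : ∀ b ∈ B, b ∈ V) (h0 : (0 : A) ∉ B)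
    (hn : ∀ b ∈ B, -b ∉ B) : 2 * B.card + 1 ≤ p ^ finrank (ZMod p) V := by
  classical
  have hdis : Disjoint B (B.image (fun x => -x)) := by
    rw [Finset.disjoint_left]
    intro s hs hs2
    obtain ⟨t, ht, h⟩ := mem_image.1 hs2
    exact hn t ht (by rw [h]; exact hs)
  have h0' : (0 : A) ∉ B ∪ B.image (fun x => -x) := by
    intro h
    rcases mem_union.1 h with h | h
    · exact h0 h
    · obtain ⟨t, ht, h⟩ := mem_image.1 h
      have : t = 0 := neg_eq_zero.1 h
      exact h0 (this ▸ ht)
  have h1 : (insert (0 : A) (B ∪ B.image (fun x => -x))).card = 2 * B.card + 1 := by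
    rw [card_insert_of_notMem h0', card_union_of_disjoint hdis, card_image_of_injective _ neg_injective]
    ring
  have h2 : ((insert (0 : A) (B ∪ B.image (fun x => -x)) : Finset A) : Set A) ⊆ (V : Set A) := by
    intro x hx
    rcases mem_insert.1 (mem_coe.1 hx) with h | h
    · rw [h]; exact V.zero_mem
    · rcases mem_union.1 h with h | h
      · exact hB x h
      · obtain ⟨t, ht, rfl⟩ := mem_image.1 h
        exact V.neg_mem (hB t ht)
  have h3 := Set.ncard_le_ncard h2 (Set.toFinite _)
  rw [Set.ncard_coe_finset, h1] at h3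
  have h7 : (V : Set A).ncard = p ^ finrank (ZMod p) V := by
    have h8 : Nat.card V = p ^ finrank (ZMod p) V := by
      have := Module.natCard_eq_pow_finrank (K := ZMod p) (V := V)
      rw [this, Nat.card_eq_fintype_card, ZMod.card]
    rw [← h8]
    exact (Nat.card_coe_set_eq _).symm
  rw [h7] at h3
  exact h3

theorem num_rest {p w K d b : ℕ} (hp : 5 ≤ p) (hd1 : 1 ≤ d) (hd : d < w) (hb : 2 * b + 1 ≤ p ^ d)
    (hK : p ^ (w - 1) ≤ K * w) : b ≤ K * d := by
  obtain ⟨j, rfl⟩ : ∃ j, w = d + 1 + j := ⟨w - (d + 1), by omega⟩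
  have h1 : j + 1 ≤ p ^ j := Nat.lt_pow_self (by omega)
  have h2 : d + 1 + j - 1 = d + j := by omega
  rw [h2, pow_add] at hK
  have h3 : d + 1 + j ≤ 2 * d * (j + 1) := by nlinarith
  have h4 : (d + 1 + j) * p ^ d ≤ 2 * d * (p ^ d * p ^ j) := by
    calc (d + 1 + j) * p ^ d ≤ (2 * d * (j + 1)) * p ^ d := Nat.mul_le_mul_right _ h3
      _ ≤ (2 * d * p ^ j) * p ^ d := Nat.mul_le_mul_right _ (Nat.mul_le_mul_left _ h1)
      _ = 2 * d * (p ^ d * p ^ j) := by ring
  have h5 : (d + 1 + j) * p ^ d ≤ 2 * d * (K * (d + 1 + j)) :=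
    h4.trans (Nat.mul_le_mul_left _ hK)
  have h6 : (d + 1 + j) * p ^ d ≤ (d + 1 + j) * (2 * d * K) := by
    calc _ ≤ _ := h5
      _ = _ := by ring
  have h7 : p ^ d ≤ 2 * d * K := Nat.le_of_mul_le_mul_left h6 (by omega)
  nlinarith

theorem t_REST : S_REST := by
  intro p w K _ hp5 hw A _ _ _ W Q O U hfw hQW h0 hneg hQc hpK hO hOK hU
  classical
  have hp : p.Prime := Fact.out
  have hfd : FiniteDimensional (ZMod p) A := Module.Finite.of_finite
  have hKpos : 0 < K := by
    rcases Nat.eq_zero_or_pos K with h | h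
    · rw [h, zero_mul] at hpK
      have : 0 < p ^ (w - 1) := pow_pos hp.pos _
      omega
    · exact h
  have hcond : ∀ B ⊆ Q, B.card ≤ K * finrank (ZMod p) ↥(Submodule.span (ZMod p) (B : Set A)) := by
    intro B hB
    rcases B.eq_empty_or_nonempty with hBe | hBne
    · rw [hBe]; simp
    have hspanW : Submodule.span (ZMod p) (B : Set A) ≤ W := by
      rw [Submodule.span_le]
      intro x hx
      exact hQW x (hB hx)
    have hdle : finrank (ZMod p) ↥(Submodule.span (ZMod p) (B : Set A)) ≤ w := by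
      rw [← hfw]; exact Submodule.finrank_mono hspanW
    have hd1 : 1 ≤ finrank (ZMod p) ↥(Submodule.span (ZMod p) (B : Set A)) := by
      obtain ⟨x, hx⟩ := hBne
      have hx0 : x ≠ 0 := fun h => h0 (h ▸ hB hx)
      have h5 : Submodule.span (ZMod p) {x} ≤ Submodule.span (ZMod p) (B : Set A) :=
        Submodule.span_mono (by simpa using hx)
      have h6 := Submodule.finrank_mono h5
      rw [finrank_span_singleton hx0] at h6
      exact h6
    rcases Nat.eq_or_lt_of_le hdle with h | h
    · rw [h, ← hQc]; exact card_le_card hB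
    · refine num_rest hp5 hd1 h ?_ hpK
      refine two_card_lt B _ (fun b hb => Submodule.subset_span hb) (fun h => h0 (hB h)) ?_
      intro b hb hb'
      exact hneg b (hB hb) (hB hb')
  obtain ⟨c, hc, -⟩ := equitable (K := ZMod p) hKpos hcond
  -- the classes are in `W`
  have hCW : ∀ j, Submodule.span (ZMod p) ((Q.filter (fun x => c x = j) : Finset A) : Set A) ≤ W := by
    intro j
    rw [Submodule.span_le]
    intro x hx
    exact hQW x (mem_filter.1 (mem_coe.1 hx)).1
  have hCle : ∀ j, (Q.filter (fun x => c x = j)).card ≤ w := by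
    intro j
    have h1 := hc j
    unfold Ind at h1
    rw [← h1, ← hfw]
    exact Submodule.finrank_mono (hCW j)
  have hCsum : ∑ j : Fin K, (Q.filter (fun x => c x = j)).card = K * w := by
    rw [← hQc]
    exact (card_eq_sum_card_fiberwise (fun x _ => mem_univ _)).symm
  have hCeq : ∀ j, (Q.filter (fun x => c x = j)).card = w := by
    have h1 : ∑ j : Fin K, (Q.filter (fun x => c x = j)).card = ∑ j : Fin K, w := by
      rw [hCsum, sum_const, card_univ, Fintype.card_fin, smul_eq_mul]
    have h2 := (sum_eq_sum_iff_of_le (fun j _ => hCle j)).1 h1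
    exact fun j => h2 j (mem_univ j)
  -- the vectors outside
  obtain ⟨e, he⟩ : ∃ e : A → Fin K, ∀ x ∈ O, ∀ y ∈ O, e x = e y → x = y := by
    have h1 : Fintype.card O ≤ Fintype.card (Fin K) := by
      rw [Fintype.card_coe, Fintype.card_fin]; exact hOK
    obtain ⟨f⟩ := Function.Embedding.nonempty_of_card_le h1
    refine ⟨fun x => if h : x ∈ O then f ⟨x, h⟩ else ⟨0, hKpos⟩, fun x hx y hy h => ?_⟩
    simp only [dif_pos hx, dif_pos hy] at h
    have := f.injective h
    exact congrArg Subtype.val this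
  have hOle : ∀ j, (O.filter (fun x => e x = j)).card ≤ 1 := by
    intro j
    rw [card_le_one]
    intro a ha b hb
    obtain ⟨ha1, ha2⟩ := mem_filter.1 ha
    obtain ⟨hb1, hb2⟩ := mem_filter.1 hb
    exact he a ha1 b hb1 (ha2.trans hb2.symm)
  have hOsum : ∑ j : Fin K, (O.filter (fun x => e x = j)).card = O.card :=
    (card_eq_sum_card_fiberwise (fun x _ => mem_univ _)).symm
  let D : Fin K → Finset A := fun j => Q.filter (fun x => c x = j) ∪ O.filter (fun x => e x = j)
  have hDdis : ∀ j, Disjoint (Q.filter (fun x => c x = j)) (O.filter (fun x => e x = j)) := by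
    intro j
    rw [Finset.disjoint_left]
    intro x hx hx'
    exact hO x (mem_filter.1 hx').1 (hQW x (mem_filter.1 hx).1)
  have hDcard : ∀ j, (D j).card = w + (O.filter (fun x => e x = j)).card := by
    intro j
    show (Q.filter (fun x => c x = j) ∪ O.filter (fun x => e x = j)).card = _
    rw [card_union_of_disjoint (hDdis j), hCeq j]
  have hDind : ∀ j, Ind (ZMod p) (D j) := by
    intro j
    rcases Nat.lt_or_ge (O.filter (fun x => e x = j)).card 1 with h | h
    · have h1 : O.filter (fun x => e x = j) = ∅ := card_eq_zero.1 (by omega)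
      have h2 : D j = Q.filter (fun x => c x = j) := by
        show Q.filter (fun x => c x = j) ∪ O.filter (fun x => e x = j) = _
        rw [h1, union_empty]
      rw [h2]
      exact hc j
    · have h1 : (O.filter (fun x => e x = j)).card = 1 := le_antisymm (hOle j) h
      obtain ⟨o, ho⟩ := card_eq_one.1 h1
      have h2 : D j = insert o (Q.filter (fun x => c x = j)) := by
        show Q.filter (fun x => c x = j) ∪ O.filter (fun x => e x = j) = _
        rw [ho, union_comm, insert_eq]
      rw [h2]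
      refine (hc j).insert ?_
      intro h3
      have h4 : o ∈ O.filter (fun x => e x = j) := by rw [ho]; exact mem_singleton_self o
      exact hO o (mem_filter.1 h4).1 (hCW j h3)
  have hGU : GrS U = ⨆ j, GrS (D j) := by
    have hmem : ∀ a, a ∈ U ↔ ∃ j, a ∈ D j := by
      intro a
      rw [hU a]
      constructor
      · rintro (h | h)
        · exact ⟨c a, mem_union_left _ (mem_filter.2 ⟨h, rfl⟩)⟩
        · exact ⟨e a, mem_union_right _ (mem_filter.2 ⟨h, rfl⟩)⟩
      · rintro ⟨j, h⟩
        rcases mem_union.1 h with h | h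
        · exact Or.inl (mem_filter.1 h).1
        · exact Or.inr (mem_filter.1 h).1
    ext a b
    rw [iSup_adj]
    constructor
    · rintro ⟨hab, h | h⟩
      · obtain ⟨j, hj⟩ := (hmem _).1 h
        exact ⟨j, hab, Or.inl hj⟩
      · obtain ⟨j, hj⟩ := (hmem _).1 h
        exact ⟨j, hab, Or.inr hj⟩
    · rintro ⟨j, hab, h | h⟩
      · exact ⟨hab, Or.inl ((hmem _).2 ⟨j, h⟩)⟩
      · exact ⟨hab, Or.inr ((hmem _).2 ⟨j, h⟩)⟩
  have hLW := lw_iSup (fun j => GrS (D j)) (fun j => (D j).card)
    (fun j => (2 * ((D j).card : ℕ) : ℝ) / (p : ℝ) ^ (D j).card)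
    (fun j => lw_ind hp5 _ (ind_lin (hDind j)))
  have hN : ∑ j, (D j).card = K * w + O.card := by
    simp only [hDcard]
    rw [sum_add_distrib, hOsum, sum_const, card_univ, Fintype.card_fin, smul_eq_mul]
  have hterm : ∀ j, (2 * ((D j).card : ℕ) : ℝ) / (p : ℝ) ^ (D j).card =
      2 * w / (p : ℝ) ^ w + ((O.filter (fun x => e x = j)).card : ℝ) *
        (2 * (w + 1) / (p : ℝ) ^ (w + 1) - 2 * w / (p : ℝ) ^ w) := by
    intro j
    rw [hDcard j]
    rcases Nat.lt_or_ge (O.filter (fun x => e x = j)).card 1 with h | h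
    · have h1 : (O.filter (fun x => e x = j)).card = 0 := by omega
      rw [h1]
      simp
    · have h1 : (O.filter (fun x => e x = j)).card = 1 := le_antisymm (hOle j) h
      rw [h1]
      push_cast
      ring
  have hS : ∑ j, (2 * ((D j).card : ℕ) : ℝ) / (p : ℝ) ^ (D j).card =
      ((K : ℝ) - O.card) * (2 * w / (p : ℝ) ^ w) + O.card * (2 * (w + 1) / (p : ℝ) ^ (w + 1)) := by
    simp only [hterm]
    rw [sum_add_distrib, ← sum_mul, sum_const, card_univ, Fintype.card_fin, nsmul_eq_mul]
    have h1 : ∑ j : Fin K, ((O.filter (fun x => e x = j)).card : ℝ) = (O.card : ℝ) := by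
      exact_mod_cast hOsum
    rw [h1]
    ring
  rw [hN, hS, ← hGU] at hLW
  exact hLW

end Pool.Agent.U438.EA
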